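import Pool.Agent.TH639.SX.Arr

/-!
The Tate conjecture for the cyclic coverings of the projective plane, of prime power degree, branched
over several smooth curves which cross transversally.
-/

set_option autoImplicit false
set_option maxHeartbeats 1000000

open Polynomial

namespace Pool.Agent.Results.MP_17a657_ag.CrossingBranchCurves

open Pool.Agent.TH639.SN Pool.Agent.TH639.SX

section defs

variable {k : Type} [Field k]

/-- The forms in `s` have no common zero in the projective plane over an algebraic closure. -/
def NoCommonZero (s : Set (MvPolynomial (Fin 3) k)) : Prop :=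
  ∀ i, ∃ n : ℕ, MvPolynomial.X i ^ n ∈ Ideal.span s

/-- The `F i` are forms of the degrees `d i > 0`, the plane curves `F i = 0` are smooth, any two of
them cross transversally (in finitely many points), and no three of them have a common point. -/
structure IsArrangement {ι : Type} (d : ι → ℕ) (F : ι → MvPolynomial (Fin 3) k) : Prop where
  form : ∀ i, (F i).IsHomogeneous (d i)
  pos : ∀ i, 0 < d i
  smooth : ∀ i, NoCommonZero (insert (F i) (Set.range fun a => MvPolynomial.pderiv a (F i)))
  transversal : ∀ i j, i ≠ j → NoCommonZero (insert (F i) (insert (F j)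
    (Set.range fun p : Fin 3 × Fin 3 =>
      MvPolynomial.pderiv p.1 (F i) * MvPolynomial.pderiv p.2 (F j) -
        MvPolynomial.pderiv p.2 (F i) * MvPolynomial.pderiv p.1 (F j))))
  noTriple : ∀ i j l, i ≠ j → j ≠ l → i ≠ l → NoCommonZero {F i, F j, F l}
  finite : FiniteCrossings 2 F

/-- The polynomial `L` is the numerator of the zeta function `L(T) / ((1 - T) (1 - q T))` of the plane
curve `F = 0`. So `L(1)` is the number of rational points of the Jacobian if the curve is smooth. -/
def IsNumerator (F : MvPolynomial (Fin 3) k) (L : ℤ[X]) : Prop :=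
  projZetaInv 2 F * (L : PowerSeries ℤ) =
    (((1 - X) * (1 - C (Nat.card k : ℤ) * X) : ℤ[X]) : PowerSeries ℤ)

/-- The multiplicity of the zero one of the reduction of `L` modulo `ℓ`. -/
noncomputable def multOne (ℓ : ℕ) (L : ℤ[X]) : ℕ :=
  (L.map (Int.castRingHom (ZMod ℓ))).rootMultiplicity 1

/-- The product `multiProj ψ 2 F` over the closed points of the projective plane is a polynomial
over `A` times the product of the `(1 - q ζ T) ^ (r ζ)`, for the elements `ζ` of `Z`: it vanishes to
order at least `r ζ` at `T = 1 / (q ζ)`. -/
def VanishesTo {A : Type} [CommRing A] {ι : Type} [Fintype ι] (ψ : ι → MulChar k A)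
    (F : ι → MvPolynomial (Fin 3) k) (Z : Finset A) (r : A → ℕ) : Prop :=
  ∃ H : A[X], multiProj ψ 2 F =
    (((∏ ζ ∈ Z, (1 - C ((Nat.card k : A) * ζ) * X) ^ r ζ) * H : A[X]) : PowerSeries A)

theorem dvd_card {A : Type} [CommRing A] [Finite k] {ℓ a : ℕ} (ha : a ≠ 0) {χ : MulChar k A}
    (hχ : orderOf χ = ℓ ^ a) : ℓ ∣ Nat.card k - 1 := by
  have h1 : χ ^ (Nat.card k - 1) = 1 := by
    have hk1 : 1 < Nat.card k := Finite.one_lt_card
    apply MulChar.ext
    intro a
    have := Fintype.ofFinite k
    rw [MulChar.pow_apply' χ (by omega), MulChar.one_apply a.isUnit, ← map_pow,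
      Nat.card_eq_fintype_card, FiniteField.pow_card_sub_one_eq_one _ a.ne_zero, map_one]
  have h2 := orderOf_dvd_of_pow_eq_one h1
  rw [hχ] at h2
  exact (dvd_pow_self ℓ ha).trans h2

end defs

/-- **The Tate conjecture for coverings of the plane with crossing branch curves.**

Let `ℓ` be a prime, `k` a finite field with `q` elements, and `B_i : F_i = 0` smooth plane curves over
`k`, of the degrees `d_i`, `i = 1, ..., r`, which cross transversally and have no triple points. Let
`ψ_i` be characters of `kˣ` of orders `ℓ ^ (a_i) > 1` (so `ℓ` divides `q - 1`), not all quadratic, such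
that the product of the `ψ_i ^ (d_i)` is trivial; their values are in an integral domain `A` of
characteristic zero which is integral over the integers. They define a Kummer sheaf on the complement
`U` of the curves with the trace `∏ ψ_i(N F_i(z))` at a closed point `z`. It is tame and ramified along
each of the curves, so only the second cohomology `V = H_c^2(U) = H^2(U)` with these coefficients is
not zero, it is pure of weight two, and `multiProj ψ 2 F` is the characteristic polynomial
`det(1 - T Φ)` of the Frobenius `Φ` on `V`; its degree is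
`3 - ∑ (3 d_i - d_i ^ 2) + ∑_{i < j} d_i d_j`.

Let `L_i(T) / ((1 - T) (1 - q T))` be the zeta function of `B_i`; `L_i(1)` is the number of rational
points of its Jacobian. Theorem: for every finite set `Z` of roots of unity in `A` whose orders are
powers of `ℓ`, the sum over `ζ` in `Z` of the multiplicities of the eigenvalues `q ζ` of `Φ` is at most
`3 - 2 r + ∑ multOne ℓ L_i + crossings ℓ 2 F`. Here `multOne ℓ L_i` is zero if `L_i(1)` is prime to
`ℓ`, and `crossings ℓ 2 F` is the sum of the `ℓ`-parts of the degrees of the closed points in which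
two of the curves cross.

Main case. Let `r = 2` or `r = 3`, let all `L_i(1)` be prime to `ℓ`, and let any two of the curves
cross in only one closed point, of degree `d_i d_j` prime to `ℓ`. Then the bound is zero: no `q ζ` is
an eigenvalue of `Φ`.

Consequence for the question. Let `N` be a power of `ℓ` dividing `q - 1`, `e_i` prime to `ℓ` with
`∑ e_i d_i` divisible by `N`, and `u` in `kˣ`. Let `X_u` be the minimal resolution of the
normalization of the surface `w ^ N = u ∏ F_i ^ (e_i)`, which has cyclic quotient singularities over
the crossing points. The second cohomology of `X_u` is the sum of the classes of the line and of the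
exceptional curves and of the spaces `V` for `ψ_i = χ ^ (e_i)`, for the characters `χ ≠ 1` with
`χ ^ N = 1` (`u` can be put into `F_1`). In the main case (for `N = 2` see the statement on
hyperelliptic curves in `MP_60d5ce_nt`) the map `c` of the question is surjective for `X_u`, for every
`u` and over all extensions of `k` whose degree is a power of `ℓ`. By specialization the same holds for
these surfaces over all finitely generated fields, for instance number fields, if they have such a
reduction at one place. An example: the quintic surfaces `w ^ 5 = F_1 F_2`, with six singular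
points of type `A_4`, for a conic and a cubic curve crossing in one closed point of degree six, if
`q = 1` modulo `5` and the number of rational points of the cubic is prime to `5`. -/
theorem result (ℓ : ℕ) (hℓ : ℓ.Prime) (k : Type) [Field k] [Finite k] (A : Type) [CommRing A]
    [IsDomain A] [CharZero A] [Algebra.IsIntegral ℤ A] (ι : Type) [Fintype ι]
    (ψ : ι → MulChar k A) (hψ : ∀ i, ∃ a, a ≠ 0 ∧ orderOf (ψ i) = ℓ ^ a)
    (h2 : ∃ i, orderOf (ψ i) ≠ 2) (d : ι → ℕ) (F : ι → MvPolynomial (Fin 3) k)
    (hF : IsArrangement d F) (_hd : ∏ i, ψ i ^ d i = 1) (L : ι → ℤ[X])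
    (hL : ∀ i, IsNumerator (F i) (L i)) (Z : Finset A) (hZ : ∀ ζ ∈ Z, ∃ j : ℕ, ζ ^ (ℓ ^ j) = 1)
    (r : A → ℕ) (hr : VanishesTo ψ F Z r) :
    ∑ ζ ∈ Z, r ζ + 2 * Fintype.card ι ≤ 3 + ∑ i, multOne ℓ (L i) + crossings ℓ 2 F := by
  obtain ⟨i0, -⟩ := h2
  obtain ⟨a0, ha0, h0⟩ := hψ i0
  obtain ⟨H, hH⟩ := hr
  have hL' : ∀ i, projZetaInv 2 (F i) * (L i : PowerSeries ℤ) =
      ((∏ e ∈ Finset.range 2, (1 - Polynomial.C ((Nat.card k : ℤ) ^ e) * Polynomial.X) :
        ℤ[X]) : PowerSeries ℤ) := by
    intro i
    rw [Finset.prod_range_succ, Finset.prod_range_succ, Finset.prod_range_zero, one_mul, pow_zero,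
      pow_one, C_1, one_mul]
    exact hL i
  have h1 := bound_multi hℓ (dvd_card ha0 h0) (ψ := ψ)
    (fun i => by
      obtain ⟨a, -, h⟩ := hψ i
      exact ⟨a, by rw [← h]; exact pow_orderOf_eq_one (ψ i)⟩) 2 F hF.finite hL' Z
    (fun ζ => (Nat.card k : A) * ζ) (fun ζ hζ => by
      obtain ⟨j, hj⟩ := hZ ζ hζ
      exact ⟨ℓ ^ j, j, by rw [mul_pow, hj, mul_one]⟩) r H hH
  have h3 : ∀ i, multOne ℓ (L i) = Pool.Agent.TH639.SG.muL ℓ (L i) := fun _ => rfl
  simp only [h3]
  omega

end Pool.Agent.Results.MP_17a657_ag.CrossingBranchCurves
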