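import Mathlib
import Pool.Agent.TH115.GD.Defs
import Pool.Agent.TH115.GD.Defs2
import Pool.Agent.TH115.GD.Defs3
import Pool.Agent.TH115.TC.AllB

/-!
# The defect in the Tate conjecture for elliptic surfaces and their quadratic twists

Let `k` be a field of characteristic different from 2 (for example finitely generated over its
prime field), `k'` a separable closure of `k`, `K = k(t)`, `F = k'(t)`. Let `E` be an elliptic curve
over `K` without points of order 2 over `F`. It has an equation `y² = f(x, t)` with

`f = x³ + a₂ x² + a₄ x + a₆`

over `k[t]`, separable over `K` and without roots in `F`. Let `C` be the curve `f(x, t) = 0`,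
`N = K(θ)`, `f(θ) = 0`, its function field, and `R` the integral closure of `k[t]` in `N`.

For a nonzero polynomial `D` over `k` (for example `D = 1`) let `X_D` be the elliptic surface over the
projective line with the generic fibre `E_D : D(t) y² = f(x, t)`. A prime `P` of `R` is bad
(`IsBad`) if it contains `D` or if it lies over a singular point of the affine curve `C`. Let
`b(D)` (`badSum`) be the number of the bad primes, minus the number of the primes `v` of `k[t]` over
which there is a bad prime `P` of odd degree (the degree of `P` over `v`, `relDegree`, is the exponent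
of `v` in the norm of `P`).

Theorem. Let the number of elements of the class group of `R` with square 1, times the index of the
group generated by the constants and the squares in the group of units of `R`, be at most `2 ^ d`.
Then for all nonzero `D` the space of the classes in `V₂ Sel(E_D / F)` which are fixed by the Galois
group of `k` is generated by `d + b(D)` elements.

As `Br(X_D ⊗ k') = Ш(E_D / F)` up to `p`-torsion (Grothendieck), the sum of the rank of `E_D(K)` and of
the defect in the Tate conjecture for divisors on `X_D` at the prime 2 is at most `d + b(D)`. Here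
`b(D) ≤ b(1) + 2 n`, where `n` is the number of the prime factors of `D` over `k`, and `b(D) = b(1)` if
these are inert in `C`; the degree of `D` and the geometric genus of `X_D` are not bounded. A point of
`C` with one branch of odd degree (for example over a fibre of type `I_n`, `n` odd, `II`, `IV`, `IV*`,
`II*`) does not count in `b(1)`; a node (`I_n`, `n` even) counts one. If there is just one point of the
normalization of `C` at infinity, of degree one or three, then the units of `R` are constants and the
condition on `d` is that `J(k)[2]` has at most `2 ^ d` elements, where `J` is the Jacobian of the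
normalization. For finitely generated `k` the number `d` always exists.
-/

namespace Pool.Agent.Results.MP_17a657_ag.DescentBoundAllCurves

open Polynomial IsDedekindDomain Pool.Agent.TH115.GD

theorem result {k k' K F N R : Type} [Field k] [Field k'] [Algebra k k'] [Field K] [Algebra k[X] K]
    [Field F] [Algebra k'[X] F] [IsFractionRing k'[X] F] [Algebra K F] (hT : IsTower k k' K F)
    [Field N] [Algebra K N] [Algebra k[X] N] [IsScalarTower k[X] K N]
    [CommRing R] [IsDedekindDomain R] [Algebra R N] [IsFractionRing R N]
    [Algebra k[X] R] [IsScalarTower k[X] R N] [Module.Finite k[X] R] [Module.IsTorsionFree k[X] R]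
    (h2 : (2 : k) ≠ 0) {a₂ a₄ a₆ : k[X]}
    (hΔ : (twist K a₂ a₄ a₆ 1).Δ ≠ 0) (hnr : ∀ x : F, cub (twist K a₂ a₄ a₆ 1) x ≠ 0) {θ : N}
    (hθ : cub (twist K a₂ a₄ a₆ 1) θ = 0) (hN : IntermediateField.adjoin K {θ} = ⊤)
    (hfin : Finite {c : ClassGroup R // c ^ 2 = 1}) {U : Finset Rˣ}
    (hU : ∀ ε : Rˣ, ∃ η ∈ U, ∃ (u : k) (v : Rˣ), (ε : R) = algebraMap k[X] R (C u) * v ^ 2 * η)
    {d : ℕ} (hd : Nat.card {c : ClassGroup R // c ^ 2 = 1} * U.card ≤ 2 ^ d)
    {D : k[X]} (hD : D ≠ 0) :
    GeneratedBy (F := F) k' (twist K a₂ a₄ a₆ D) (d + badSum R a₂ a₄ a₆ D θ) :=
  allB_bound hT h2 hΔ hnr hθ hN hfin hU hd hD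

end Pool.Agent.Results.MP_17a657_ag.DescentBoundAllCurves
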