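import Pool.Agent.TH629.CM.Tate

/-!
# The Tate conjecture for divisors and identities modulo algebraic classes
-/

set_option autoImplicit false

open CategoryTheory AlgebraicGeometry

universe u v w

open Pool.Agent.H914 Pool.Agent.H914.VarClass Pool.Agent.H914.VarClass.Obj Pool.Agent.W492.BB
  Pool.Agent.W550.Corr Pool.Agent.TH133 Pool.Agent.TH629.CM.Th

namespace Pool.Agent.Results.MP_17a657_ag.IdentitiesOnSurfaces

/-- Let `𝒯 X` be subspaces of the cohomology of the varieties `X` (the Tate classes in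
`H^2(X, ℚ_ℓ(1))`), stable under correspondences of degree zero. (1) For each `n`, all these classes on
varieties of dimension `n` are algebraic if and only if the identity `a` holds for them, modulo
algebraic classes, on the varieties in the class `𝒰 n`. (2) They are algebraic on all varieties if and
only if the identity holds on the surfaces in the class `𝒰 2`. -/
theorem result {k : Type u} [Field k] {𝒱 : VarClass k} (C : TheoryData.{u, v, 0} 𝒱 ℚ)
    [IsChowProj C] {K : Type w} [Field K] [CharZero K] (H : WeilTheoryData.{u, v, w} C K)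
    [IsWeilProj H] (𝒯 : Classes H) (hst : 𝒯.IsStable) (hS : 𝒯.DetectedOnSurfaces)
    (𝒰 : ℕ → 𝒱.Obj → Prop) (h𝒰 : IsLarge C 𝒰) (a : Ident) :
    (∀ n, 𝒯.AlgebraicIn n ↔ 𝒯.HoldsModuloAlgebraic a n (𝒰 n)) ∧
      ((∀ n, 𝒯.AlgebraicIn n) ↔ 𝒯.HoldsModuloAlgebraic a 2 (𝒰 2)) :=
  ⟨fun n => tate_iff 𝒯 hst n _ (h𝒰 n).1 (h𝒰 n).2 a,
    tate_surfaces_iff 𝒯 hst hS _ (h𝒰 2).1 (h𝒰 2).2 a⟩

end Pool.Agent.Results.MP_17a657_ag.IdentitiesOnSurfaces
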