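import Mathlib
import Pool.Agent.TH115.GD.Defs
import Pool.Agent.TH115.GD.Defs2
import Pool.Agent.TH115.SD.Crit2

/-!
# The Tate conjecture at 2 for elliptic surfaces whose Mordell-Weil rank attains the bound of the
second geometric 2-descent

Let `k` be a field of characteristic different from 2 (for example finitely generated over its
prime field), `k'` a separable closure, `K = k(t)`, `F = k'(t)`, and

`E : y² = x (x - a) (x - b)`

with coprime polynomials `a ≠ b`, not zero, such that the irreducible factors of `a b (a - b)` are
separable. Suppose that the maximum `N` of the degrees of `a` and `b` is odd (or that two of `a`, `b`,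
`a - b` have an irreducible factor of odd degree and odd multiplicity).

Let `Triples a b` be the set of the triples `(A, B, D)` of monic squarefree divisors of `a`, `b`,
`a - b` over `k` (with a condition on the parities of the degrees if `N` is even), and let
`Triples2 a b` be the subset of the triples for which there are constants `r`, `s` in `k` such that
`(r A B, s A D)` satisfies the conditions `SecondCond`: at each irreducible factor `π` of odd
multiplicity of `a`, `b` or `a - b` one explicit element is a square modulo `π`, and if `N` is odd, for
one of the points of order two two leading coefficients are squares.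

Theorem. Suppose that `Triples2 a b` has at most `2 ^ (d + 2)` elements, and that `E(K)` contains `d`
points which are independent modulo `2 E(K) + E(K)[2]`. Then all classes in `V₂ Sel(E / F)` which
are fixed by the Galois group of `k` come from `E(K)`.

As `Br(X ⊗ k') = Ш(E / F)` up to `p`-torsion (Grothendieck), this is the Tate conjecture for
divisors at the prime 2 on the elliptic surface `X` over the projective line with generic fibre `E`.
As `Triples2 a b` is contained in `Triples a b`, which has `2 ^ ω` elements if `N` is odd, `ω` the number
of the irreducible factors of `a b (a - b)`, this covers the surfaces of the maximal rank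
`ω - 2`; but for general `a`, `b` with given points the conditions `SecondCond` leave only the triples
of these points, and then the rank can be much smaller than `ω - 2`.
-/

namespace Pool.Agent.Results.MP_17a657_ag.SecondDescentRank

open Polynomial Pool.Agent.TH115.GD
open scoped Classical

theorem result {k k' K F : Type} [Field k] [Field k'] [Algebra k k'] [Field K] [Algebra k[X] K]
    [Field F] [Algebra k'[X] F] [IsFractionRing k'[X] F] [Algebra K F] (hT : IsTower k k' K F)
    (h2 : (2 : k) ≠ 0) {a b : k[X]} (ha : a ≠ 0) (hb : b ≠ 0) (hab : a ≠ b) (hco : IsCoprime a b)
    (hsep : ∀ π : k[X], Irreducible π → π ∣ a * b * (a - b) → π.Separable)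
    (hodd : Odd (max a.natDegree b.natDegree) ∨ TwoOddFactors a b)
    {d : ℕ} (hd : (Triples2 a b).encard ≤ 2 ^ (d + 2))
    (P : Fin d → Pt (crv (algebraMap k[X] K a) (algebraMap k[X] K b)) K)
    (hP : ∀ S : Finset (Fin d), S.Nonempty →
      ∀ T Q : Pt (crv (algebraMap k[X] K a) (algebraMap k[X] K b)) K, T + T = 0 →
        ∑ i ∈ S, P i ≠ T + (Q + Q)) :
    TateAtTwo (F := F) k' (crv (algebraMap k[X] K a) (algebraMap k[X] K b)) :=
  criterion2 hT h2 ha hb hab hco hsep hodd
    (enough_of_rank2 hT h2 ha hb hab hco hsep hodd hd P hP)

end Pool.Agent.Results.MP_17a657_ag.SecondDescentRank
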